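import Pool.Agent.H99.WC.CrossForm
import Pool.Agent.H90.WC.Zset

/-!
The circles of two frames of `Z` cross only at marked points (problem MP_90715c_gt, module C2).
-/

open Matrix Set Filter Topology

namespace Pool.Agent.H90.WC

variable {Γ : Subgroup G} {K : Set (OnePoint ℂ)}

theorem noncross_fin (h : Hyp Γ K) {q q' : G} (hq : q ∈ Z Γ K) (hq' : q' ∈ Z Γ K) {x x' : ℝ}
    (_hd : (q⁻¹ * q') 1 0 * x' + (q⁻¹ * q') 1 1 ≠ 0)
    (hx : (q⁻¹ * q') 0 0 * x' + (q⁻¹ * q') 0 1 = x * ((q⁻¹ * q') 1 0 * x' + (q⁻¹ * q') 1 1)) :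
    (((q⁻¹ * q') 1 0 * x' + (q⁻¹ * q') 1 1) ^ 2).im = 0 :=
  noncross_fin_of h (fun _ hq α β hα => Z_right hq α β hα) hq hq' hx

theorem cross_form (h : Hyp Γ K) {q q' : G} (hq : q ∈ Z Γ K) (hq' : q' ∈ Z Γ K)
    (hB : |Bf (q⁻¹ * q')| < 1) : CrossForm (q⁻¹ * q') :=
  cross_form_of h (fun _ hq α β hα => Z_right hq α β hα) hq hq' hB

end Pool.Agent.H90.WC
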