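import Pool.Agent.H99.WC.NonCross
import Pool.Agent.H90.WC.Inv

/-!
The circles of two frames of `Z` cross only at marked points (problem MP_90715c_gt, module C2):
the algebraic form.
-/

open Matrix Set Filter Topology

namespace Pool.Agent.H90.WC

variable {Γ : Subgroup G} {K : Set (OnePoint ℂ)}

/-- If `g x' = x` with `x`, `x'` real then the derivative of `g` at `x'` is real. -/
theorem noncross_fin_of (h : Hyp Γ K)
    (Z_right : ∀ q ∈ Z Γ K, ∀ (α β : ℝ) (hα : α ≠ 0), q * bR α β hα ∈ Z Γ K)
    {q q' : G} (hq : q ∈ Z Γ K) (hq' : q' ∈ Z Γ K) {x x' : ℝ}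
    (hx : (q⁻¹ * q') 0 0 * x' + (q⁻¹ * q') 0 1 = x * ((q⁻¹ * q') 1 0 * x' + (q⁻¹ * q') 1 1)) :
    (((q⁻¹ * q') 1 0 * x' + (q⁻¹ * q') 1 1) ^ 2).im = 0 := by
  have e : (q * bR 1 x one_ne_zero)⁻¹ * (q' * bR 1 x' one_ne_zero)
      = (bR 1 x one_ne_zero)⁻¹ * (q⁻¹ * q') * bR 1 x' one_ne_zero := by group
  have key := noncross_zero h Z_right (Z_right q hq 1 x one_ne_zero)
    (Z_right q' hq' 1 x' one_ne_zero) (by
      rw [e, mul_01, mul_00, mul_01, inv_00, inv_01]
      simp only [bR_01, bR_11, Complex.ofReal_one, inv_one]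
      linear_combination hx)
  rw [e, mul_11, mul_10, mul_11, inv_10, inv_11] at key
  simp only [bR_00, bR_01, bR_10, bR_11, Complex.ofReal_one, inv_one, neg_zero, zero_mul,
    one_mul, mul_one, zero_add] at key
  exact key

/-- Algebra behind `cross_form`. -/
theorem cross_form_alg {g : G}
    (H : ∀ x x' : ℝ, g 0 0 * x' + g 0 1 = x * (g 1 0 * x' + g 1 1) →
      ((g 1 0 * x' + g 1 1) ^ 2).im = 0) (hB : |Bf g| < 1) : CrossForm g := by
  obtain ⟨a, ha⟩ : ∃ a, g 0 0 = a := ⟨_, rfl⟩
  obtain ⟨b, hb⟩ : ∃ b, g 0 1 = b := ⟨_, rfl⟩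
  obtain ⟨c, hc⟩ : ∃ c, g 1 0 = c := ⟨_, rfl⟩
  obtain ⟨d, hd⟩ : ∃ d, g 1 1 = d := ⟨_, rfl⟩
  have hdet := det_eq g
  unfold CrossForm
  unfold Bf at hB
  rw [ha, hb, hc, hd] at hdet hB
  simp only [ha, hb, hc, hd] at H ⊢
  -- the quadratic polynomial
  set A : ℝ := a.im * c.re - a.re * c.im with hA
  set B : ℝ := a.im * d.re - a.re * d.im + (b.im * c.re - b.re * c.im) with hBB
  set C : ℝ := b.im * d.re - b.re * d.im with hC
  have hdr : a.re * d.re - a.im * d.im - (b.re * c.re - b.im * c.im) = 1 := by
    have := congrArg Complex.re hdet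
    simpa using this
  have hdi : a.re * d.im + a.im * d.re - (b.re * c.im + b.im * c.re) = 0 := by
    have := congrArg Complex.im hdet
    simpa using this
  have hBr : ((starRingEnd ℂ) a * d - b * (starRingEnd ℂ) c).re
      = a.re * d.re + a.im * d.im - (b.re * c.re + b.im * c.im) := by
    simp [Complex.mul_re]
  rw [hBr] at hB
  have hdisc : B ^ 2 - 4 * A * C
      = 1 - (a.re * d.re + a.im * d.im - (b.re * c.re + b.im * c.im)) ^ 2 := by
    rw [hA, hBB, hC]
    linear_combination (1 + (a.re * d.re - a.im * d.im - (b.re * c.re - b.im * c.im))) * hdr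
      + (a.re * d.im + a.im * d.re - (b.re * c.im + b.im * c.re)) * hdi
  have hdp : 0 < B ^ 2 - 4 * A * C := by
    rw [hdisc]
    have := (sq_lt_one_iff_abs_lt_one _).2 hB
    linarith
  -- every real root is the point which goes to infinity
  have root : ∀ t : ℝ, A * t ^ 2 + B * t + C = 0 → c * t + d = 0 := by
    intro t ht
    by_contra hne
    -- the value is real
    set D := c * (t : ℂ) + d with hD
    set N := a * (t : ℂ) + b with hN
    have hDr : D.re = c.re * t + d.re := by simp [hD]
    have hDi : D.im = c.im * t + d.im := by simp [hD]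
    have hNr : N.re = a.re * t + b.re := by simp [hN]
    have hNi : N.im = a.im * t + b.im := by simp [hN]
    have him : N.im * D.re - N.re * D.im = 0 := by
      rw [hDr, hDi, hNr, hNi]
      rw [hA, hBB, hC] at ht
      linear_combination ht
    have hnz : D.re ^ 2 + D.im ^ 2 ≠ 0 := by
      intro h0
      apply hne
      have h1 : D.re = 0 := by nlinarith [sq_nonneg D.re, sq_nonneg D.im]
      have h2 : D.im = 0 := by nlinarith [sq_nonneg D.re, sq_nonneg D.im]
      exact Complex.ext h1 h2
    set x : ℝ := (N.re * D.re + N.im * D.im) / (D.re ^ 2 + D.im ^ 2) with hx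
    have hx1 : N.re = x * D.re := by
      rw [hx]; field_simp; linear_combination -D.im * him
    have hx2 : N.im = x * D.im := by
      rw [hx]; field_simp; linear_combination D.re * him
    have hval : N = x * D := by
      apply Complex.ext
      · simp [hx1]
      · simp [hx2]
    have hsq := H x t hval
    rw [sq, Complex.mul_im] at hsq
    -- the derivative at the root
    have hder : 2 * A * t + B = -(2 * (D.re * D.im)) / (D.re ^ 2 + D.im ^ 2) := by
      rw [eq_div_iff hnz]
      have r1 : (a.re - c.re * x) * D.re - (a.im - c.im * x) * D.im = 1 := by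
        have : (a - c * x) * D = 1 := by
          have h3 : a * D - c * N = 1 := by rw [hD, hN]; linear_combination hdet
          rw [hval] at h3
          linear_combination h3
        have := congrArg Complex.re this
        simpa using this
      have r2 : (a.re - c.re * x) * D.im + (a.im - c.im * x) * D.re = 0 := by
        have : (a - c * x) * D = 1 := by
          have h3 : a * D - c * N = 1 := by rw [hD, hN]; linear_combination hdet
          rw [hval] at h3
          linear_combination h3
        have := congrArg Complex.im this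
        simpa using this
      have r3 : 2 * A * t + B = a.im * D.re - a.re * D.im + (N.im * c.re - N.re * c.im) := by
        rw [hDr, hDi, hNr, hNi, hA, hBB]; ring
      rw [r3, hx1, hx2]
      linear_combination (-2 * D.re * D.im) * r1 + (D.re ^ 2 - D.im ^ 2) * r2
    have h0 : 2 * A * t + B = 0 := by
      rw [hder]
      have : D.re * D.im = 0 := by linarith
      rw [this]; simp
    have : (2 * A * t + B) ^ 2 = B ^ 2 - 4 * A * C := by linear_combination 4 * A * ht
    rw [h0] at this
    norm_num at this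
    linarith
  -- `A = 0`
  have hA0 : A = 0 := by
    by_contra hA0
    set w := Real.sqrt (B ^ 2 - 4 * A * C) with hw
    have hw2 : w ^ 2 = B ^ 2 - 4 * A * C := Real.sq_sqrt hdp.le
    have hwp : 0 < w := Real.sqrt_pos.2 hdp
    have r1 := root ((-B + w) / (2 * A)) (by field_simp; linear_combination hw2)
    have r2 := root ((-B - w) / (2 * A)) (by field_simp; linear_combination hw2)
    have hc0 : c * ((w / A : ℝ) : ℂ) = 0 := by
      have e1 : ((w / A : ℝ) : ℂ) = (((-B + w) / (2 * A) : ℝ) : ℂ) - (((-B - w) / (2 * A) : ℝ) : ℂ) := by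
        rw [← Complex.ofReal_sub]
        congr 1
        field_simp
        ring
      rw [e1]
      linear_combination r1 - r2
    have hwA : ((w / A : ℝ) : ℂ) ≠ 0 := by
      rw [Ne, Complex.ofReal_eq_zero]
      exact div_ne_zero hwp.ne' hA0
    have hc1 : c = 0 := by
      rcases mul_eq_zero.1 hc0 with h | h
      · exact h
      · exact absurd h hwA
    have hd1 : d = 0 := by
      rw [hc1] at r1
      simpa using r1
    rw [hc1, hd1] at hdet
    simp at hdet
  have hB0 : B ≠ 0 := by
    intro h
    rw [hA0, h] at hdp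
    norm_num at hdp
  have r := root (-C / B) (by rw [hA0]; field_simp; ring)
  have hc0 : c ≠ 0 := by
    intro h
    rw [h] at r
    have hd1 : d = 0 := by simpa using r
    rw [h, hd1] at hdet
    simp at hdet
  refine ⟨hc0, ?_, ?_⟩
  · rw [Complex.div_im]
    have hn : Complex.normSq c ≠ 0 := by rwa [Ne, Complex.normSq_eq_zero]
    field_simp
    linarith
  · have : d / c = ((C / B : ℝ) : ℂ) := by
      rw [div_eq_iff hc0]
      push_cast at r ⊢
      linear_combination r
    rw [this, Complex.ofReal_im]

theorem cross_form_of (h : Hyp Γ K)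
    (Z_right : ∀ q ∈ Z Γ K, ∀ (α β : ℝ) (hα : α ≠ 0), q * bR α β hα ∈ Z Γ K)
    {q q' : G} (hq : q ∈ Z Γ K) (hq' : q' ∈ Z Γ K)
    (hB : |Bf (q⁻¹ * q')| < 1) : CrossForm (q⁻¹ * q') :=
  cross_form_alg (fun _ _ hx => noncross_fin_of h Z_right hq hq' hx) hB

end Pool.Agent.H90.WC
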