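import Pool.Agent.H90.WC.Basic
import Pool.Agent.H20.WC.CrossC

/-!
The circles of two frames of `Z` cross only at marked points (problem MP_90715c_gt, module C2).
-/

open Matrix Set Filter Topology

namespace Pool.Agent.H90.WC

/-! ### A real linear change of coordinates -/

/-- The real linear map with `1 ↦ 1` and `u ↦ I`. -/
noncomputable def lin (u z : ℂ) : ℂ := ⟨z.re - u.re / u.im * z.im, z.im / u.im⟩

lemma lin_add (u z w : ℂ) : lin u (z + w) = lin u z + lin u w := by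
  apply Complex.ext
  · simp only [lin, Complex.add_re, Complex.add_im]; ring
  · simp only [lin, Complex.add_im]; ring

lemma lin_ofReal (u : ℂ) (x : ℝ) : lin u (x : ℂ) = (x : ℂ) := by
  apply Complex.ext <;> simp [lin]

lemma lin_mul_ofReal {u : ℂ} (hu : u.im ≠ 0) (x : ℝ) : lin u (u * (x : ℂ)) = ⟨0, x⟩ := by
  apply Complex.ext
  · simp only [lin, Complex.mul_re, Complex.mul_im, Complex.ofReal_re, Complex.ofReal_im]
    field_simp
    ring
  · simp only [lin, Complex.mul_im, Complex.ofReal_re, Complex.ofReal_im]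
    field_simp
    ring

lemma lin_inj {u : ℂ} (hu : u.im ≠ 0) {z w : ℂ} (h : lin u z = lin u w) : z = w := by
  have h1 := congrArg Complex.re h
  have h2 := congrArg Complex.im h
  simp only [lin] at h1 h2
  have h3 : z.im = w.im := by
    field_simp at h2
    exact h2
  rw [h3] at h1
  exact Complex.ext (by linarith) h3

lemma continuous_lin (u : ℂ) : Continuous (lin u) := by
  have : lin u = fun z : ℂ => ((z.re - u.re / u.im * z.im : ℝ) : ℂ)
      + ((z.im / u.im : ℝ) : ℂ) * Complex.I := by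
    funext z
    apply Complex.ext <;> simp [lin]
  rw [this]
  fun_prop

lemma lin_bound (u z : ℂ) : |(lin u z).re| ≤ (1 + |u.re / u.im| + |1 / u.im|) * ‖z‖ ∧
    |(lin u z).im| ≤ (1 + |u.re / u.im| + |1 / u.im|) * ‖z‖ := by
  have h1 := Complex.abs_re_le_norm z
  have h2 := Complex.abs_im_le_norm z
  have p1 := abs_nonneg (u.re / u.im)
  have p2 := abs_nonneg (1 / u.im)
  have p3 := norm_nonneg z
  constructor
  · calc |(lin u z).re| = |z.re - u.re / u.im * z.im| := rfl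
      _ ≤ |z.re| + |u.re / u.im * z.im| := abs_sub _ _
      _ = |z.re| + |u.re / u.im| * |z.im| := by rw [abs_mul]
      _ ≤ ‖z‖ + |u.re / u.im| * ‖z‖ := by gcongr
      _ ≤ _ := by nlinarith [mul_nonneg p2 p3]
  · calc |(lin u z).im| = |1 / u.im * z.im| := by
          change |z.im / u.im| = _
          congr 1; ring
      _ = |1 / u.im| * |z.im| := by rw [abs_mul]
      _ ≤ |1 / u.im| * ‖z‖ := by gcongr
      _ ≤ _ := by nlinarith [mul_nonneg p1 p3]

/-- A zoom: `(a, 0; c s², d)` is close to `w ↦ w / d²` on bounded sets. -/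
lemma exists_zoom {a c d : ℂ} (had : a * d = 1) {δ : ℝ} (hδ : 0 < δ) :
    ∃ s : ℝ, s ≠ 0 ∧ ∀ w : ℂ, ‖w‖ ≤ 3 → c * (s : ℂ) ^ 2 * w + d ≠ 0 ∧
      ‖a * w / (c * (s : ℂ) ^ 2 * w + d) - (d ^ 2)⁻¹ * w‖ ≤ δ := by
  have hd : d ≠ 0 := right_ne_zero_of_mul_eq_one had
  have ha : a ≠ 0 := left_ne_zero_of_mul_eq_one had
  have hd0 : 0 < ‖d‖ := norm_pos_iff.2 hd
  have ha0 : 0 < ‖a‖ := norm_pos_iff.2 ha
  have hc0 := norm_nonneg c
  set τ : ℝ := min (‖d‖ / (6 * (‖c‖ + 1))) (δ * ‖d‖ ^ 2 / (18 * (‖a‖ * (‖c‖ + 1)))) with hτ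
  have hτ0 : 0 < τ := by
    apply lt_min <;> positivity
  have hτ1 : τ * (6 * (‖c‖ + 1)) ≤ ‖d‖ := by
    calc τ * (6 * (‖c‖ + 1)) ≤ ‖d‖ / (6 * (‖c‖ + 1)) * (6 * (‖c‖ + 1)) := by
          gcongr; exact min_le_left _ _
      _ = ‖d‖ := by field_simp
  have hτ2 : τ * (18 * (‖a‖ * (‖c‖ + 1))) ≤ δ * ‖d‖ ^ 2 := by
    calc τ * (18 * (‖a‖ * (‖c‖ + 1)))
        ≤ δ * ‖d‖ ^ 2 / (18 * (‖a‖ * (‖c‖ + 1))) * (18 * (‖a‖ * (‖c‖ + 1))) := by
          gcongr; exact min_le_right _ _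
      _ = δ * ‖d‖ ^ 2 := by field_simp
  refine ⟨Real.sqrt τ, (Real.sqrt_pos.2 hτ0).ne', fun w hw => ?_⟩
  have hs2 : ((Real.sqrt τ : ℝ) : ℂ) ^ 2 = (τ : ℂ) := by
    rw [← Complex.ofReal_pow, Real.sq_sqrt hτ0.le]
  rw [hs2]
  have hnτ : ‖(τ : ℂ)‖ = τ := by rw [Complex.norm_real, Real.norm_of_nonneg hτ0.le]
  have hw0 := norm_nonneg w
  have hcw : ‖c * (τ : ℂ) * w‖ ≤ ‖d‖ / 2 := by
    rw [norm_mul, norm_mul, hnτ]
    calc ‖c‖ * τ * ‖w‖ ≤ ‖c‖ * τ * 3 := by gcongr
      _ ≤ ‖d‖ / 2 := by nlinarith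
  have hden : ‖d‖ / 2 ≤ ‖c * (τ : ℂ) * w + d‖ := by
    have h := norm_sub_norm_le d (-(c * (τ : ℂ) * w))
    rw [norm_neg, sub_neg_eq_add, add_comm d] at h
    linarith
  have hne : c * (τ : ℂ) * w + d ≠ 0 := by
    intro h0
    rw [h0, norm_zero] at hden
    linarith
  refine ⟨hne, ?_⟩
  have e : a * w / (c * (τ : ℂ) * w + d) - (d ^ 2)⁻¹ * w
      = -(a * c * (τ : ℂ) * w ^ 2) / (d * (c * (τ : ℂ) * w + d)) := by
    have hdinv : (d ^ 2)⁻¹ = a / d := by
      rw [eq_div_iff hd, inv_mul_eq_iff_eq_mul₀ (pow_ne_zero _ hd)]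
      linear_combination -d * had
    rw [hdinv, div_mul_eq_mul_div, div_sub_div _ _ hne hd, mul_comm d (c * (τ : ℂ) * w + d)]
    congr 1
    ring
  rw [e, norm_div, norm_neg, div_le_iff₀ (by rw [norm_mul]; positivity)]
  calc ‖a * c * (τ : ℂ) * w ^ 2‖ = ‖a‖ * ‖c‖ * τ * ‖w‖ ^ 2 := by
        rw [norm_mul, norm_mul, norm_mul, norm_pow, hnτ]
    _ ≤ ‖a‖ * ‖c‖ * τ * 3 ^ 2 := by gcongr
    _ ≤ δ * (‖d‖ * (‖d‖ / 2)) := by
        have := mul_pos ha0 hτ0
        nlinarith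
    _ ≤ δ * (‖d‖ * ‖c * (τ : ℂ) * w + d‖) := by gcongr
    _ = δ * ‖d * (c * (τ : ℂ) * w + d)‖ := by rw [norm_mul]

variable {Γ : Subgroup G} {K : Set (OnePoint ℂ)}

/-- Two frames of `Z` with the same origin have parallel circles there. -/
theorem noncross_zero (h : Hyp Γ K)
    (Z_right : ∀ q ∈ Z Γ K, ∀ (α β : ℝ) (hα : α ≠ 0), q * bR α β hα ∈ Z Γ K)
    {q q' : G} (hq : q ∈ Z Γ K) (hq' : q' ∈ Z Γ K) (h01 : (q⁻¹ * q') 0 1 = 0) :
    (((q⁻¹ * q') 1 1) ^ 2).im = 0 := by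
  set g := q⁻¹ * q' with hg
  have had : g 0 0 * g 1 1 = 1 := by
    have := det_eq g
    rw [h01] at this
    linear_combination this
  have hd : g 1 1 ≠ 0 := right_ne_zero_of_mul_eq_one had
  by_contra him
  set u : ℂ := (g 1 1 ^ 2)⁻¹ with hu
  have hui : u.im ≠ 0 := by
    rw [hu, Complex.inv_im]
    have hn : Complex.normSq (g 1 1 ^ 2) ≠ 0 := by
      rw [Ne, Complex.normSq_eq_zero]
      exact pow_ne_zero _ hd
    exact div_ne_zero (neg_ne_zero.2 him) hn
  set C : ℝ := 1 + |u.re / u.im| + |1 / u.im| with hC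
  have hC1 : 1 ≤ C := by
    have := abs_nonneg (u.re / u.im)
    have := abs_nonneg (1 / u.im)
    linarith
  have hC0 : 0 < C := by linarith
  have hu0 := norm_nonneg u
  obtain ⟨s, hs, hz⟩ := exists_zoom (c := g 1 0) had (δ := 1 / (4 * C)) (by positivity)
  set ε : ℝ := 1 / (2 * C * (1 + ‖u‖)) with hε
  have hε0 : 0 < ε := by positivity
  have hε1 : C * ε ≤ 1 / 2 := by
    have : C * ε = 1 / (2 * (1 + ‖u‖)) := by rw [hε]; field_simp
    rw [this]
    gcongr
    linarith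
  have hε2 : C * (‖u‖ * ε) ≤ 1 / 2 := by
    have : C * (‖u‖ * ε) = ‖u‖ / (2 * (1 + ‖u‖)) := by rw [hε]; field_simp
    rw [this, div_le_div_iff₀ (by positivity) (by positivity)]
    linarith
  have hε3 : ε ≤ 1 / 2 := by nlinarith
  -- the two continua
  obtain ⟨γ, hγ, -, κ, hκ, hκK⟩ := Z_right q hq s 0 hs 2 (by norm_num) ε hε0 ∅ finite_empty
  obtain ⟨γ', hγ', hγF, κ', hκ', hκK'⟩ := Z_right q' hq' s 0 hs 2 (by norm_num) ε hε0 {γ, -γ}
    (by simp)
  simp only [mem_insert_iff, mem_singleton_iff, not_or] at hγF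
  -- the transition
  set g' : G := (bR s 0 hs)⁻¹ * g * bR s 0 hs with hg'
  have hsC : (s : ℂ) ≠ 0 := by exact_mod_cast hs
  have e00 : g' 0 0 = g 0 0 := by
    rw [hg', mul_00, mul_00, mul_01, inv_00, inv_01]
    simp only [bR_00, bR_01, bR_10, bR_11, Complex.ofReal_zero]
    field_simp
    ring
  have e01 : g' 0 1 = 0 := by
    rw [hg', mul_01, mul_00, mul_01, inv_00, inv_01]
    simp only [bR_01, bR_11, Complex.ofReal_zero, h01]
    ring
  have e10 : g' 1 0 = g 1 0 * (s : ℂ) ^ 2 := by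
    rw [hg', mul_10, mul_10, mul_11, inv_10, inv_11]
    simp only [bR_00, bR_10]
    ring
  have e11 : g' 1 1 = g 1 1 := by
    rw [hg', mul_11, mul_10, mul_11, inv_10, inv_11]
    simp only [bR_00, bR_10, bR_01, bR_11, Complex.ofReal_zero]
    field_simp
    ring
  have hmob : ∀ w, mob g' w = g 0 0 * w / (g 1 0 * (s : ℂ) ^ 2 * w + g 1 1) := by
    intro w
    rw [mob, e00, e01, e10, e11, add_zero]
  have hqg : q * bR s 0 hs * g' = q' * bR s 0 hs := by
    rw [hg', hg]; group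
  have hκ'n : ∀ w ∈ κ', ‖w‖ ≤ 3 := by
    intro w hw
    have h1 := hκ'.re_le w hw
    have h2 := hκ'.im_le w hw
    have h3 := Complex.norm_le_abs_re_add_abs_im w
    linarith
  have hden : ∀ w ∈ κ', g' 1 0 * w + g' 1 1 ≠ 0 := by
    intro w hw
    rw [e10, e11]
    exact (hz w (hκ'n w hw)).1
  -- estimates
  have est1 : ∀ w ∈ κ, |(lin u w).re - w.re| < 1 ∧ |(lin u w).im| < 1 := by
    intro w hw
    have e : w = (w.re : ℂ) + (w.im : ℂ) * Complex.I := (Complex.re_add_im w).symm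
    have hb := lin_bound u ((w.im : ℂ) * Complex.I)
    have hn : ‖(w.im : ℂ) * Complex.I‖ ≤ ε := by
      rw [norm_mul, Complex.norm_I, mul_one, Complex.norm_real]
      exact hκ.im_le w hw
    have hn' : C * ‖(w.im : ℂ) * Complex.I‖ ≤ 1 / 2 := by
      refine le_trans ?_ hε1
      gcongr
    have hl : lin u w = (w.re : ℂ) + lin u ((w.im : ℂ) * Complex.I) := by
      conv_lhs => rw [e]
      rw [lin_add, lin_ofReal]
    constructor
    · have : (lin u w).re - w.re = (lin u ((w.im : ℂ) * Complex.I)).re := by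
        rw [hl, Complex.add_re, Complex.ofReal_re]; ring
      rw [this]
      linarith [hb.1]
    · have : (lin u w).im = (lin u ((w.im : ℂ) * Complex.I)).im := by
        rw [hl, Complex.add_im, Complex.ofReal_im]; ring
      rw [this]
      linarith [hb.2]
  have est2 : ∀ w ∈ κ', |(lin u (mob g' w)).im - w.re| < 1 ∧ |(lin u (mob g' w)).re| < 1 := by
    intro w hw
    set r : ℂ := u * ((w.im : ℂ) * Complex.I) + (mob g' w - u * w) with hr
    have e : mob g' w = u * (w.re : ℂ) + r := by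
      have : u * w = u * (w.re : ℂ) + u * ((w.im : ℂ) * Complex.I) := by
        rw [← mul_add, Complex.re_add_im]
      rw [hr, this]; ring
    have hb := lin_bound u r
    have hz2 := (hz w (hκ'n w hw)).2
    rw [← hmob w, ← hu] at hz2
    have hn1 : ‖u * ((w.im : ℂ) * Complex.I)‖ ≤ ‖u‖ * ε := by
      rw [norm_mul, norm_mul, Complex.norm_I, mul_one, Complex.norm_real]
      gcongr
      exact hκ'.im_le w hw
    have hn : ‖r‖ ≤ ‖u‖ * ε + 1 / (4 * C) := (norm_add_le _ _).trans (add_le_add hn1 hz2)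
    have hn' : C * ‖r‖ ≤ 3 / 4 := by
      calc C * ‖r‖ ≤ C * (‖u‖ * ε + 1 / (4 * C)) := by gcongr
        _ = C * (‖u‖ * ε) + 1 / 4 := by rw [mul_add]; field_simp
        _ ≤ 3 / 4 := by linarith
    have hl : lin u (mob g' w) = ⟨0, w.re⟩ + lin u r := by
      rw [e, lin_add, lin_mul_ofReal hui]
    constructor
    · have : (lin u (mob g' w)).im - w.re = (lin u r).im := by
        rw [hl, Complex.add_im]; ring
      rw [this]
      linarith [hb.2]
    · have : (lin u (mob g' w)).re = (lin u r).re := by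
        rw [hl, Complex.add_re]; ring
      rw [this]
      linarith [hb.1]
  have hcont : ContinuousOn (fun w => lin u (mob g' w)) κ' := by
    refine (continuous_lin u).comp_continuousOn ?_
    unfold mob
    refine ContinuousOn.div (by fun_prop) (by fun_prop) hden
  have hcross := cross_continua (A := lin u '' κ) (B := (fun w => lin u (mob g' w)) '' κ')
    (hκ.cpt.image (continuous_lin u)) (hκ.conn.image _ (continuous_lin u).continuousOn)
    (hκ'.cpt.image_of_continuousOn hcont) (hκ'.conn.image _ hcont)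
    (a := 1) (b := 1) one_pos one_pos
    (by rintro _ ⟨w, hw, rfl⟩; exact (est1 w hw).2)
    (by rintro _ ⟨w, hw, rfl⟩; exact (est2 w hw).2)
    (by
      obtain ⟨w, hw, hw2⟩ := hκ.left
      refine ⟨_, mem_image_of_mem _ hw, ?_⟩
      have := abs_lt.1 (est1 w hw).1
      linarith [this.2])
    (by
      obtain ⟨w, hw, hw2⟩ := hκ.right
      refine ⟨_, mem_image_of_mem _ hw, ?_⟩
      have := abs_lt.1 (est1 w hw).1
      linarith [this.1])
    (by
      obtain ⟨w, hw, hw2⟩ := hκ'.left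
      refine ⟨_, mem_image_of_mem _ hw, ?_⟩
      have := abs_lt.1 (est2 w hw).1
      change (lin u (mob g' w)).im ≤ -1
      linarith [this.2])
    (by
      obtain ⟨w, hw, hw2⟩ := hκ'.right
      refine ⟨_, mem_image_of_mem _ hw, ?_⟩
      have := abs_lt.1 (est2 w hw).1
      change 1 ≤ (lin u (mob g' w)).im
      linarith [this.1])
  obtain ⟨z, ⟨w, hw, hwz⟩, w', hw', hwz'⟩ := hcross
  have hww : w = mob g' w' := lin_inj hui (hwz.trans hwz'.symm)
  have k1 := hκK w hw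
  have k2 := hκK' w' hw'
  rw [← hqg] at k2
  have k2' : act γ'⁻¹ (act (q * bR s 0 hs) (w : OnePoint ℂ)) ∈ K := by
    rw [act_mul, act_mul] at k2
    rw [hww, ← act_coe_of_ne (hden w' hw')]
    exact k2
  have k1' : act γ⁻¹ (act (q * bR s 0 hs) (w : OnePoint ℂ)) ∈ K := by
    rw [← act_mul]
    exact k1
  exact h.disj hγ hγ' hγF.1 hγF.2 k1' k2'

end Pool.Agent.H90.WC
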